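import Pool.Agent.E8helper1.TX.Side

/-!
# Direct sums of twists of potentially semisimple representations
-/

set_option autoImplicit false

namespace Pool.Agent.E8helper76.TX

open Module
open Pool.Agent.Y126.Notions (PotentiallySemisimple)
open Pool.Agent.E8helper1.TX

/-- **Piece SSG** -/
theorem t_SSG : S_SSG := by
  intro K _ V _ _ _ gr hgr Γ _ ρ ρ' c hc htw hst hss Δ hΔ U hU
  -- the partial sums
  obtain ⟨W, hW⟩ : ∃ W : ℕ → Submodule K V, W = fun n => ⨆ i, ⨆ (_ : i < n), gr i := ⟨_, rfl⟩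
  have hgrW : ∀ i n, i < n → gr i ≤ W n := by
    intro i n hin
    rw [hW]
    exact le_iSup_of_le i (le_iSup_of_le hin le_rfl)
  have hWmono : Monotone W := by
    intro m n hmn
    rw [hW]
    refine iSup_le fun i => iSup_le fun hi => ?_
    have := hgrW i n (lt_of_lt_of_le hi hmn)
    rw [hW] at this
    exact this
  have hWsucc : ∀ n, W (n + 1) ≤ W n ⊔ gr n := by
    intro n
    conv_lhs => rw [hW]
    refine iSup_le fun i => iSup_le fun hi => ?_
    rcases Nat.lt_succ_iff_lt_or_eq.1 hi with h | h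
    · exact le_sup_of_le_left (hgrW i n h)
    · rw [h]; exact le_sup_right
  have hW0 : W 0 = ⊥ := by
    rw [hW, eq_bot_iff]
    exact iSup_le fun i => iSup_le fun hi => absurd hi (Nat.not_lt_zero i)
  obtain ⟨N, hN⟩ : ∃ N, W N = ⊤ := by
    obtain ⟨N, hN⟩ := monotone_stabilizes_iff_noetherian.2
      (inferInstance : IsNoetherian K V) ⟨W, hWmono⟩
    refine ⟨N, ?_⟩
    rw [eq_top_iff, ← hgr.submodule_iSup_eq_top]
    refine iSup_le fun i => ?_
    have h1 := hgrW i (max N (i + 1)) (lt_of_lt_of_le (Nat.lt_succ_self i) (le_max_right _ _))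
    have h2 := hN (max N (i + 1)) (le_max_left _ _)
    have h3 : W N = W (max N (i + 1)) := h2
    rw [h3]
    exact h1
  -- stability for the two representations
  have st1 : ∀ (n : ℕ) (C : Submodule K V), C ≤ gr n → (∀ g ∈ Δ, ∀ u ∈ C, ρ g u ∈ C) →
      ∀ g ∈ Δ, ∀ u ∈ C, ρ' g u ∈ C := by
    intro n C hC h g hg u hu
    rw [htw g n u (hC hu)]
    exact C.smul_mem _ (h g hg u hu)
  have st2 : ∀ (n : ℕ) (C : Submodule K V), C ≤ gr n → (∀ g ∈ Δ, ∀ u ∈ C, ρ' g u ∈ C) →
      ∀ g ∈ Δ, ∀ u ∈ C, ρ g u ∈ C := by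
    intro n C hC h g hg u hu
    have h1 := h g hg u hu
    rw [htw g n u (hC hu)] at h1
    have h2 := C.smul_mem (c g n)⁻¹ h1
    rwa [smul_smul, inv_mul_cancel₀ (hc g n), one_smul] at h2
  have key : ∀ n : ℕ, ∃ U' : Submodule K V, (∀ g ∈ Δ, ∀ u ∈ U', ρ' g u ∈ U') ∧ U ⊓ U' = ⊥ ∧
      W n ≤ U ⊔ U' := by
    intro n
    induction n with
    | zero =>
      refine ⟨⊥, ?_, inf_bot_eq _, by rw [hW0]; exact bot_le⟩
      intro g _ u hu
      rw [Submodule.mem_bot] at hu ⊢
      rw [hu, map_zero]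
    | succ n ih =>
      obtain ⟨U', h1, h2, h3⟩ := ih
      have hWst : ∀ g ∈ Δ, ∀ u ∈ gr n ⊓ (U ⊔ U'), ρ' g u ∈ gr n ⊓ (U ⊔ U') := by
        intro g hg u hu
        obtain ⟨hu1, hu2⟩ := Submodule.mem_inf.1 hu
        refine Submodule.mem_inf.2 ⟨?_, ?_⟩
        · rw [htw g n u hu1]
          exact (gr n).smul_mem _ (hst g n u hu1)
        · obtain ⟨a, ha, b, hb, rfl⟩ := Submodule.mem_sup.1 hu2
          rw [map_add]
          exact Submodule.add_mem_sup (hU g hg a ha) (h1 g hg b hb)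
      obtain ⟨C, hC1, hC2, hC3, hC4⟩ := hss Δ hΔ n (gr n ⊓ (U ⊔ U')) inf_le_left
        (st2 n _ inf_le_left hWst)
      have hdis : C ⊓ (U ⊔ U') = ⊥ := by
        rw [eq_bot_iff, ← hC3]
        refine le_inf (le_inf (inf_le_left.trans hC1) inf_le_right) inf_le_left
      refine ⟨U' ⊔ C, ?_, ?_, ?_⟩
      · intro g hg u hu
        obtain ⟨a, ha, b, hb, rfl⟩ := Submodule.mem_sup.1 hu
        rw [map_add]
        exact Submodule.add_mem_sup (h1 g hg a ha) (st1 n C hC1 hC2 g hg b hb)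
      · rw [eq_bot_iff]
        intro x hx
        obtain ⟨hx1, hx2⟩ := Submodule.mem_inf.1 hx
        obtain ⟨a, ha, b, hb, rfl⟩ := Submodule.mem_sup.1 hx2
        have hb1 : b ∈ C ⊓ (U ⊔ U') := by
          refine Submodule.mem_inf.2 ⟨hb, ?_⟩
          have : b = (a + b) + (-a) := by abel
          rw [this]
          exact Submodule.add_mem_sup hx1 (U'.neg_mem ha)
        rw [hdis, Submodule.mem_bot] at hb1
        rw [hb1, add_zero] at hx1 ⊢
        rw [← h2]
        exact Submodule.mem_inf.2 ⟨hx1, ha⟩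
      · refine (hWsucc n).trans (sup_le (h3.trans ?_) ?_)
        · exact sup_le le_sup_left (le_sup_of_le_right le_sup_left)
        · rw [← hC4]
          refine sup_le (inf_le_right.trans (sup_le le_sup_left
            (le_sup_of_le_right le_sup_left))) (le_sup_of_le_right le_sup_right)
  obtain ⟨U', h1, h2, h3⟩ := key N
  refine ⟨U', h1, ?_⟩
  rw [isCompl_iff, disjoint_iff, codisjoint_iff]
  refine ⟨h2, ?_⟩
  rw [eq_top_iff, ← hN]
  exact h3

end Pool.Agent.E8helper76.TX
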